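import Pool.Agent.R707.Conc1

/-!
# Verdier goodness is not invariant under rotation

The counterexample lives in the homotopy category of complexes of `ℤ/64`-modules.  Let `P` be the
module `ℤ/64` in degree `0`, and take exact triangles `P -4-> P -v-> Z -w-> P⟦1⟧` and
`P -2-> P -v'-> Z' -w'-> P⟦1⟧`.  There is `ψ : P⟦1⟧ ⟶ Z'` with `w' ψ = 32`, and
`(f, g, h) = (8, 4, ψ w)` is a map of exact triangles.  It is Verdier good (whatever the choice of
the auxiliary exact triangles), but its rotation `(g, h, f⟦1⟧)` is not Verdier good (again whatever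
the choice).
-/

set_option autoImplicit false

open CategoryTheory Limits Pretriangulated Triangulated Pool.Agent.R707

theorem Pool.Agent.Results.MP_76bba9_al.RotationFails.result :
    ∃ (T T' : Triangle (KMod (ZMod 64))) (hT : T ∈ distTriang (KMod (ZMod 64)))
      (hT' : T' ∈ distTriang (KMod (ZMod 64))) (φ : T ⟶ T'),
      (∀ D : Aux φ, VerdierGoodWith hT hT' φ D) ∧
      ∀ D : Aux ((rotate (KMod (ZMod 64))).map φ),
        ¬ VerdierGoodWith (rot_of_distTriang T hT) (rot_of_distTriang T' hT')
          ((rotate (KMod (ZMod 64))).map φ) D := by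
  obtain ⟨Z, v, w, Z', v', w', ψ, hT, hT', hψ⟩ := exists_data
  exact ⟨_, _, hT, hT', exMap hT hT' ψ hψ, exMap_verdierGood hyp64 hT hT' ψ hψ,
    exMap_rotate_not_verdierGood hyp64 hT hT' ψ hψ⟩
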